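import Pool.Agent.N831.SX.O
import Pool.Agent.N831.SX.P
import Pool.Agent.N831.SD.T

/-!
# MP_7193be_nt: density theorems for the zeros of the derivatives of Hasse-Weil L-functions on the left of the line

Let `X` be smooth and projective over `ℤ[1/N]`, `i ≥ 0`, and suppose that `H^i(X)` is (up to semisimplification) a sum of
parts `V(f) (-r)`, where `f` is a newform of any weight `k ≥ 1`, any level and any nebentypus, and `k + 2r = i + 1`.
Examples: `H^1` of the modular curves `X_0(M)`, `X_1(M)`, of all elliptic curves over `ℚ`, of all products of abelian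
varieties over `ℚ` of `GL_2`-type and of their Weil restrictions from abelian number fields; `H^3` of rigid Calabi-Yau
threefolds over `ℚ`; any Tate twists and any multiplicities are allowed. Let `L(s) = L(i; X, s)` (with the factors at
the bad primes), an entire function.

The statement (d) says that all zeros of the completed function are on the line `Re s = (i + 1)/2`. By the theorem of
Speiser (Levinson and Montgomery for zeta, Garunkstis and Simenas for the Selberg class) the zeros of `L` off the line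
correspond to the zeros of the derivative `L'` to the LEFT of the line; statement (d) implies that `L'` has no zeros with
`Re s < (i + 1)/2` and large imaginary part, while in general the two numbers differ by `O(log T)`, and it is not
clear from this how far from the line the zeros of `L'` are.

We prove without any hypothesis, for all these L-functions and for ALL derivatives `L^(d)`, `d ≥ 1`: density theorems
for the zeros of the derivatives to the left of the line. With some `B` and for the zeros with `B < Im s ≤ T`, counted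
with multiplicity (the constants depend on `d`),

1. `L^(d)` has at most `C T^(1 - cδ) log T` zeros with `Re s ≤ (i + 1)/2 - δ`, for some `c > 0` and all `δ ≥ 0`;
2. the sum over the zeros of `L^(d)` with `Re s < (i + 1)/2` of their distances to the line is at most `C T`;
3. `L^(d)` has at most `C T^(1 - cδ) (log T)^2` zeros with `Re s ≤ (i + 1)/2 - δ`, for every `c < 1`;
4. this number is at most `C log T` times the number of distinct zeros of `L` with `Re s ≥ (i + 1)/2 + δ` and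
   `0 < Im s ≤ T + C`: every density theorem for `L` gives one for `L^(d)` on the left.

1. and 2. are in the strength of Selberg's theorem for the zeros of zeta itself.

Proof: modules `Pool.Agent.N831.SX` and `Pool.Agent.N831.SD`. In discs which are free of zeros of `L` and in which the
real part of `L'/L` is large and negative, the real parts of the quotients of consecutive derivatives stay negative
(Harnack's inequality); so every zero of `L^(d)` on the left at distance at least `C / log T` from the line is almost in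
the disc with centre `(i + 1)/2 + iγ` and radius `β - (i + 1)/2` for a zero `β + iγ` of `L` on the right. A zero of
`L^(d)` on the left has a zero of `L` weakly to its left within bounded distance. This and Jensen's inequality in discs
to the left of the line give 4. For 1. the zeros of `L` on the right are grouped, and the number of zeros of `L^(d)` near
a group is bounded by the argument principle and the density theorem of Selberg for the zeros of `L` (starting modules
`Pool.Agent.Y24.GL`, `Pool.Agent.Y671`, `Pool.Agent.Y693`, `Pool.Agent.R838`).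
-/

set_option autoImplicit false

open UpperHalfPlane MatrixGroups CongruenceSubgroup Filter

namespace Pool.Agent.Results.MP_7193be_nt.DerivativeZeroDensity

/-! ### The constituents of the cohomology -/

/-- The `n`-th Fourier coefficient `a(n)` of `f(τ) = ∑ a(n) e^(2πinτ)`. -/
noncomputable def a {M : ℕ} {k : ℤ} (f : CuspForm (Gamma1 M : Subgroup (GL (Fin 2) ℝ)) k) (n : ℕ) :
    ℂ := (qExpansion 1 f).coeff n

/-- `f` is a newform of weight `k`, level `M`, nebentypus `ψ`; the properties that are used: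
`f(γτ) = ψ(d) (cτ+d)^k f(τ)` for `γ = (a b; c d)` in `Γ₀(M)`, `a(1) = 1`, the Hecke relations
`a(mn) = a(m) a(n)` for coprime `m`, `n` and `a(p^(j+2)) = a(p) a(p^(j+1)) - ψ(p) p^(k-1) a(p^j)`,
`conj a(n) = conj ψ(n) a(n)` for `n` prime to `M`, and the Fricke involution maps `f` to a multiple
of the form with the conjugate coefficients,
`f(-1/(Mτ)) = η (√M τ/i)^k conj (f(-conj τ))` with `|η| = 1`. -/
structure IsNewform (M : ℕ) (k : ℤ) (ψ : DirichletCharacter ℂ M)
    (f : CuspForm (Gamma1 M : Subgroup (GL (Fin 2) ℝ)) k) : Prop where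
  neb : ∀ γ : SL(2, ℤ), γ ∈ Gamma0 M → ∀ τ : ℍ,
    f (γ • τ) = ψ ((γ 1 1 : ℤ) : ZMod M) * denom γ τ ^ k * f τ
  one : a f 1 = 1
  mul : ∀ m n : ℕ, Nat.Coprime m n → a f (m * n) = a f m * a f n
  pow : ∀ p j : ℕ, p.Prime → a f (p ^ (j + 2)) = a f p * a f (p ^ (j + 1)) -
    ψ (p : ZMod M) * (p : ℂ) ^ (k - 1) * a f (p ^ j)
  conj : ∀ n : ℕ, Nat.Coprime n M → (starRingEnd ℂ) (a f n) =
    (starRingEnd ℂ) (ψ (n : ZMod M)) * a f n
  fricke : ∃ η : ℂ, ‖η‖ = 1 ∧ ∀ τ τ' τc : ℍ, (τ' : ℂ) * ((M : ℂ) * (τ : ℂ)) = -1 →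
    (τc : ℂ) = -(starRingEnd ℂ) (τ : ℂ) →
    f τ' = η * (((Real.sqrt M : ℝ) : ℂ) * (τ : ℂ) / Complex.I) ^ k * (starRingEnd ℂ) (f τc)

/-- A part `V(f) (-r)` of a cohomology group of degree `i`: a newform `f` of level `M`, weight `k` and nebentypus `ψ`,
and a Tate twist `(-r)` with `k + 2r = i + 1`. -/
structure Part (i : ℕ) where
  M : ℕ
  k : ℕ
  r : ℕ
  ψ : DirichletCharacter ℂ M
  f : CuspForm (Gamma1 M : Subgroup (GL (Fin 2) ℝ)) (k : ℤ)
  M_pos : 1 ≤ M
  k_pos : 1 ≤ k
  newform : IsNewform M k ψ f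
  weight : k + 2 * r = i + 1

/-- The polynomial `P_i(X(p), T)` at `T = p^(-s)` for the sum `V` of the parts `π_0, …, π_n`:
`∏_j (1 - a_j(p) p^(r_j - s) + ψ_j(p) p^(i - 2s))`, where `ψ_j(p) = 0` for `p ∣ M_j` (for the bad `p`
this is the polynomial of the Frobenius on the inertia invariants, so that `P(p, s)⁻¹ = L_p(i; X, s)`). -/
noncomputable def P {i n : ℕ} (π : Fin (n + 1) → Part i) (p : ℕ) (s : ℂ) : ℂ :=
  ∏ j, (1 - a (π j).f p * (p : ℂ) ^ (((π j).r : ℂ) - s) +
    (π j).ψ (p : ZMod (π j).M) * (p : ℂ) ^ ((i : ℂ) - 2 * s))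

/-- `L` is the Hasse-Weil L-function with `H^i(X) = π_0 ⊕ … ⊕ π_n` (including the factors at the bad primes): it is
entire and for `Re s > i/2 + 1` it is the Euler product over all primes of `P(p, s)⁻¹`. -/
def IsLFunction {i n : ℕ} (π : Fin (n + 1) → Part i) (L : ℂ → ℂ) : Prop :=
  Differentiable ℂ L ∧ ∀ s : ℂ, (i : ℝ) / 2 + 1 < s.re →
    HasProd (fun p : Nat.Primes => (P π p s)⁻¹) (L s)

/-! ### The zeros -/

/-- The zeros of `F` with `Re s < x` and `B < Im s ≤ T`. -/
def Left (F : ℂ → ℂ) (x B T : ℝ) : Set ℂ := {s | F s = 0 ∧ s.re < x ∧ B < s.im ∧ s.im ≤ T}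

/-- The number, with multiplicity, of those at distance at least `δ` from the line `Re s = x`. -/
noncomputable def Far (F : ℂ → ℂ) (x B δ T : ℝ) : ℕ :=
  ∑ᶠ s ∈ {s | s ∈ Left F x B T ∧ s.re ≤ x - δ}, analyticOrderNatAt F s

/-- The sum over the zeros with `Re s < x` and `B < Im s ≤ T` of their distances to the line `Re s = x`. -/
noncomputable def Distances (F : ℂ → ℂ) (x B T : ℝ) : ℝ :=
  ∑ᶠ s ∈ Left F x B T, (analyticOrderNatAt F s : ℝ) * (x - s.re)

/-- The number of distinct zeros of `F` with `Re s > x`, `Re s ≥ x + δ` and `0 < Im s ≤ T`. -/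
noncomputable def Right (F : ℂ → ℂ) (x δ T : ℝ) : ℕ :=
  {s : ℂ | F s = 0 ∧ x < s.re ∧ x + δ ≤ s.re ∧ 0 < s.im ∧ s.im ≤ T}.ncard

/-- **Theorem.** Let `L` be the Hasse-Weil L-function with the parts `π_0, …, π_n` (it exists and is unique), and
`x = (i + 1)/2`. For every `d ≥ 1` and some `B` the zeros of the derivative `L^(d)` to the left of the line `Re s = x`
satisfy: (1) the density theorem of Selberg's strength, (2) the sum of their distances to the line is `O(T)`, (3) the
density theorem with every exponent `c < 1` and one more logarithm, (4) density theorems for `L` carry over. -/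
theorem result {i n : ℕ} (π : Fin (n + 1) → Part i) :
    ∃ L : ℂ → ℂ, IsLFunction π L ∧ (∀ L' : ℂ → ℂ, IsLFunction π L' → L' = L) ∧ ∀ d : ℕ, 1 ≤ d → ∃ B : ℝ,
      (∀ T : ℝ, (Left (iteratedDeriv d L) (((i : ℝ) + 1) / 2) B T).Finite) ∧
      -- 1.
      (∃ c C : ℝ, 0 < c ∧ 0 < C ∧ ∀ δ T : ℝ, 0 ≤ δ → 2 ≤ T →
        (Far (iteratedDeriv d L) (((i : ℝ) + 1) / 2) B δ T : ℝ) ≤ C * T ^ (1 - c * δ) * Real.log T) ∧
      -- 2.
      (∃ C : ℝ, 0 < C ∧ ∀ T : ℝ, 2 ≤ T → Distances (iteratedDeriv d L) (((i : ℝ) + 1) / 2) B T ≤ C * T) ∧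
      -- 3.
      (∀ c : ℝ, c < 1 → ∃ C : ℝ, 0 < C ∧ ∀ δ T : ℝ, 0 ≤ δ → 2 ≤ T →
        (Far (iteratedDeriv d L) (((i : ℝ) + 1) / 2) B δ T : ℝ) ≤ C * T ^ (1 - c * δ) * Real.log T ^ 2) ∧
      -- 4.
      (∃ C : ℝ, 0 < C ∧ ∀ δ T : ℝ, 0 ≤ δ → 2 ≤ T →
        (Far (iteratedDeriv d L) (((i : ℝ) + 1) / 2) B δ T : ℝ) ≤
          C * Real.log T * Right L (((i : ℝ) + 1) / 2) δ (T + C)) := by
  have hone : ∀ j : Fin (n + 1), ∃ X F : ℂ → ℂ, Pool.Agent.N831.SD.PG 1 X F ∧ Differentiable ℂ F ∧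
      ∀ s : ℂ, (i : ℝ) / 2 + 1 < s.re →
      HasProd (fun p : Nat.Primes =>
        (1 - a (π j).f p * ((p : ℕ) : ℂ) ^ (((π j).r : ℂ) - s) +
          (π j).ψ ((p : ℕ) : ZMod (π j).M) * ((p : ℕ) : ℂ) ^ ((i : ℂ) - 2 * s))⁻¹) (F (s - (i : ℂ) / 2)) := by
    intro j
    haveI : NeZero (π j).M := ⟨Nat.one_le_iff_ne_zero.1 (π j).M_pos⟩
    have hf := (π j).newform
    obtain ⟨η, hη, hfr⟩ := hf.fricke
    have hf' : W388.IsNewfC (π j).M (π j).k (π j).ψ (π j).f η :=
      ⟨hf.neb, hf.one, hf.mul, hf.pow, hf.conj, hη, hfr⟩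
    exact Pool.Agent.N831.SD.pg_new (π j).k_pos hf' (π j).weight
  obtain ⟨X, F, h1, h2, h3⟩ := Pool.Agent.N831.SD.pg_parts (σ := (i : ℝ) / 2 + 1)
    (a := (i : ℂ) / 2)
    (fun j p s => 1 - a (π j).f p * ((p : ℕ) : ℂ) ^ (((π j).r : ℂ) - s) +
      (π j).ψ ((p : ℕ) : ZMod (π j).M) * ((p : ℕ) : ℂ) ^ ((i : ℂ) - 2 * s)) hone
  rw [Fintype.card_fin] at h1
  have hκ : (1 : ℝ) / 2 ≤ ((n + 1 : ℕ) : ℝ) := by
    push_cast
    have : (0 : ℝ) ≤ n := Nat.cast_nonneg n
    linarith
  have e0 : ((((i : ℝ) + 1) / 2 - 1 / 2 : ℝ) : ℂ) = (i : ℂ) / 2 := by push_cast; ring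
  obtain ⟨L, hLd⟩ : ∃ L : ℂ → ℂ, L = fun s => F (s - (i : ℂ) / 2) := ⟨_, rfl⟩
  have hL : ∀ s, L s = F (s - ((((i : ℝ) + 1) / 2 - 1 / 2 : ℝ) : ℂ)) := fun s => by rw [hLd, e0]
  have hdiff : Differentiable ℂ L := by
    rw [hLd]
    exact h2.comp (by fun_prop)
  have hser : ∀ s : ℂ, (i : ℝ) / 2 + 1 < s.re → HasProd (fun p : Nat.Primes => (P π p s)⁻¹) (L s) := by
    intro s hs
    rw [hLd]
    exact h3 s hs
  refine ⟨L, ⟨hdiff, hser⟩, fun L' h' => ?_, fun d _ => ?_⟩
  · refine Pool.Agent.R838.TW.uniq (G := fun s => ∏' p : Nat.Primes, (P π p s)⁻¹) hdiff h'.1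
      ⟨(i : ℝ) / 2 + 1, fun s hs => (hser s hs).tprod_eq.symm⟩
      ⟨(i : ℝ) / 2 + 1, fun s hs => (h'.2 s hs).tprod_eq.symm⟩
  obtain ⟨c, C, B, hc, hC, hB, -, g2, g3, g4⟩ := (h1.allX hκ hL d).left
  have hfar : ∀ δ T : ℝ, Far (iteratedDeriv d L) (((i : ℝ) + 1) / 2) B δ T =
      Pool.Agent.N831.SX.NDX (iteratedDeriv d L) (((i : ℝ) + 1) / 2) B δ T := by
    intro δ T
    have e : {s | s ∈ Left (iteratedDeriv d L) (((i : ℝ) + 1) / 2) B T ∧ s.re ≤ ((i : ℝ) + 1) / 2 - δ} =
        Pool.Agent.N831.SX.ZDX (iteratedDeriv d L) (((i : ℝ) + 1) / 2) B δ T := by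
      ext s
      constructor
      · rintro ⟨⟨k1, k2, k3, k4⟩, k5⟩
        exact ⟨k1, k2, k5, k3, k4⟩
      · rintro ⟨k1, k2, k5, k3, k4⟩
        exact ⟨⟨k1, k2, k3, k4⟩, k5⟩
    unfold Far Pool.Agent.N831.SX.NDX
    rw [e]
  refine ⟨B, g2, ⟨c, C, hc, hC, fun δ T hδ hT => ?_⟩, ?_, fun c' hc' => ?_, ⟨C, hC, fun δ T hδ hT => ?_⟩⟩
  · rw [hfar]
    exact g3 δ T hδ hT
  · obtain ⟨C', hC', h4⟩ := Pool.Agent.N831.SD.dist_k hc hC g2 g3
    exact ⟨C', hC', h4⟩
  · obtain ⟨C', hC', h4⟩ := Pool.Agent.N831.SD.explicit_k h1.pq hC hC hL g4 hc'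
    refine ⟨C', hC', fun δ T hδ hT => ?_⟩
    rw [hfar]
    exact h4 δ T hδ hT
  · rw [hfar]
    exact g4 δ T hδ hT

end Pool.Agent.Results.MP_7193be_nt.DerivativeZeroDensity
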