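import Pool.Agent.N784.HC.Exi
import Pool.Agent.N545.HC.Adm
import Pool.Agent.N786.Fin

/-!
# Hecke L-functions and CM abelian varieties over every number field on the critical line

Let `K` be any number field, `d = [K : ℚ]`, and let `n` be any nonzero infinity type, i.e. a family
of exponents `n_φ ≥ 0`, `φ` the complex embeddings of `K`.  A Hecke character of type `n` modulo `𝔮`
is a completely multiplicative function `χ` on the ideals prime to `𝔮` with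
`χ((x)) = ∏_φ (φ(x)/|φ(x)|)^(n_φ)` for the totally positive integers `x ≡ 1 mod 𝔮`.
The types `n` which come from a CM subfield `F` of `K` are the types of the algebraic Hecke
characters of `K` (normalised to be unitary), and by Shimura and Taniyama the L-function of an
abelian variety over `K` with complex multiplication defined over `K` is a product of such L-functions
`L(s - 1/2, ψ)`; all the exponents are then `0` or `1`.

We prove, without any hypothesis: if the units of `K` occupy at most `N(𝔮)^δ` of the residue classes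
modulo `𝔮`, and there is a Hecke character of type `n` modulo `𝔮` (we prove Weil's criterion for
this), then, for `N(𝔮)^η ≤ T` and `(N(𝔮) T^d)^h ≤ N(𝔮)`, the proportion of the zeros with
`T < Im s ≤ 2T` of the L-functions of all primitive Hecke characters `ψ` of type `n` of
conductor dividing `𝔮` (and `≠ (1)`) which are simple and on the critical line is at least
`2 - c(h) - ε`, and the proportion of the distinct ones is at least `(3 - c(h) - ε)/2`, where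
`c` is the function of Montgomery and Taylor.  For `h` near `1` (that is, `T ≤ N(𝔮)^η₀`) these
are 67.25 and 83.625 per cent.  The same holds for every subset of the family which contains a
proportion `1 - δ` of its members.  All this is uniform in the members, which are all twists of one
of them by the characters of the narrow ray class group modulo `𝔮`.

For every number field `K` there are infinitely many such moduli, even divisible by any given ideal.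
If `K` contains a CM field `F`, `Φ` is a CM type of `F`, and the exponents `n_φ` depend only on
the restriction of `φ` to `F`, with the same parity for all elements of `Φ`, then a
character of type `n` exists modulo every `𝔮 ≠ (1)` which is divisible by `3`.

The proof contains the analytic continuation, the functional equation (Hecke) and the nonvanishing on
the line `Re s = 1` of the L-functions of all these Hecke characters, for every number field.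
-/

set_option autoImplicit false

open NumberField

namespace Pool.Agent.Results.MP_7193be_nt.HeckeEveryNumberField

section chars

variable {K : Type} [Field K] [NumberField K]

/-- `x` is totally positive -/
def TotPos (x : 𝓞 K) : Prop := ∀ τ : K →+* ℝ, 0 < τ (x : K)

/-- the archimedean part `∏_φ (φ(x)/|φ(x)|)^(n_φ)` -/
noncomputable def phase (n : (K →+* ℂ) → ℕ) (x : K) : ℂ :=
  ∏ φ : K →+* ℂ, (φ x / (‖φ x‖ : ℂ)) ^ n φ

/-- `n` is a nonzero infinity type: one of the exponents of two conjugate embeddings is zero. (The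
phases of `x` at conjugate embeddings are inverse to each other, so this is no restriction.) -/
structure IsType (n : (K →+* ℂ) → ℕ) : Prop where
  conj : ∀ φ : K →+* ℂ, n φ = 0 ∨ n (ComplexEmbedding.conjugate φ) = 0
  ne_zero : n ≠ 0

/-- `χ` is a (not necessarily primitive) Hecke character modulo `𝔮` of infinity type `n` (with
arbitrary signs at the real places) -/
structure IsHeckeChar (𝔮 : Ideal (𝓞 K)) (n : (K →+* ℂ) → ℕ) (χ : Ideal (𝓞 K) →*₀ ℂ) : Prop where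
  supp : ∀ 𝔞 : Ideal (𝓞 K), 𝔞 ≠ ⊥ → (χ 𝔞 ≠ 0 ↔ IsCoprime 𝔞 𝔮)
  ray : ∀ x : 𝓞 K, x ≠ 0 → x - 1 ∈ 𝔮 → TotPos x → χ (Ideal.span {x}) = phase n (x : K)

/-- `ψ` is a primitive Hecke character of (finite) conductor `𝔣` and infinity type `n` -/
structure IsPrimitive (𝔣 : Ideal (𝓞 K)) (n : (K →+* ℂ) → ℕ) (ψ : Ideal (𝓞 K) →*₀ ℂ) : Prop where
  ne_bot : 𝔣 ≠ ⊥
  supp : ∀ 𝔞 : Ideal (𝓞 K), 𝔞 ≠ ⊥ → (ψ 𝔞 ≠ 0 ↔ IsCoprime 𝔞 𝔣)
  ray : ∀ x : 𝓞 K, x ≠ 0 → x - 1 ∈ 𝔣 → TotPos x → ψ (Ideal.span {x}) = phase n (x : K)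
  prim : ∀ 𝔤 : Ideal (𝓞 K), 𝔤 ∣ 𝔣 → 𝔤 ≠ 𝔣 → ∃ x : 𝓞 K, x - 1 ∈ 𝔤 ∧ TotPos x ∧
    IsCoprime (Ideal.span {x}) 𝔣 ∧ ψ (Ideal.span {x}) ≠ phase n (x : K)

/-- the primitive Hecke characters of infinity type `n` whose (finite) conductor divides `𝔮` and is
not `(1)` -/
def family (n : (K →+* ℂ) → ℕ) (𝔮 : Ideal (𝓞 K)) : Set (Ideal (𝓞 K) →*₀ ℂ) :=
  {ψ | ∃ 𝔣 : Ideal (𝓞 K), 𝔣 ∣ 𝔮 ∧ 𝔣 ≠ ⊤ ∧ IsPrimitive 𝔣 n ψ}

/-- `F` is the entire function `L(s, ψ)`, given by its Euler product (over the prime ideals of `K`)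
for `Re s > 1` -/
def IsL (ψ : Ideal (𝓞 K) →*₀ ℂ) (F : ℂ → ℂ) : Prop :=
  Differentiable ℂ F ∧ ∀ s : ℂ, 1 < s.re →
    HasProd (fun 𝔭 : {𝔭 : Ideal (𝓞 K) // Prime 𝔭} =>
      (1 - ψ 𝔭 * ((Ideal.absNorm (𝔭 : Ideal (𝓞 K)) : ℕ) : ℂ) ^ (-s))⁻¹) (F s)

/-- the number of residue classes modulo `𝔮` which contain a unit of `K` -/
noncomputable def unitClasses (𝔮 : Ideal (𝓞 K)) : ℕ :=
  (Set.range (fun u : (𝓞 K)ˣ => Ideal.Quotient.mk 𝔮 (u : 𝓞 K))).ncard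

end chars

/-- The zeros of `F` in the open critical strip with `T < Im s ≤ 2T`. -/
def zeros (F : ℂ → ℂ) (T : ℝ) : Set ℂ :=
  {s : ℂ | 0 < s.re ∧ s.re < 1 ∧ T < s.im ∧ s.im ≤ 2 * T ∧ F s = 0}

/-- The number of these zeros, counted with multiplicity. -/
noncomputable def N₀ (F : ℂ → ℂ) (T : ℝ) : ℕ := ∑ᶠ s ∈ zeros F T, analyticOrderNatAt F s

/-- The number of those of them that are simple and lie on the critical line. -/
noncomputable def Ns (F : ℂ → ℂ) (T : ℝ) : ℕ :=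
  {s : ℂ | s ∈ zeros F T ∧ s.re = 1 / 2 ∧ analyticOrderNatAt F s = 1}.ncard

/-- The number of distinct zeros in the open critical strip with `T < Im s ≤ 2T`. -/
noncomputable def Nd (F : ℂ → ℂ) (T : ℝ) : ℕ := (zeros F T).ncard

/-- The function of Montgomery and Taylor, `c(1) = 1.32749...` -/
noncomputable def c (h : ℝ) : ℝ := h / 2 + Real.cot (h / Real.sqrt 2) / Real.sqrt 2

/-- For all `𝔮` of norm at least `X₀` for which there is a Hecke character of type `n` modulo `𝔮`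
and the units occupy at most `N(𝔮)^δ` residue classes:
the family is finite with at least `N(𝔮)^(1-ε)` members, and if `N(𝔮)^η ≤ T` and
`(N(𝔮) T^d)^h ≤ N(𝔮)`, then for every subset `E` of the family with at least the proportion `1 - δ`
of its members the functions `L ψ`, `ψ ∈ E`, have finitely many zeros with `T < Im s ≤ 2T`, on
average at least `(1 - ε) (T / 2π) log (N(𝔮) T^d)`, and at least the proportion `a` of them are
simple and on the critical line and at least the proportion `b` are distinct. -/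
def Holds (K : Type) [Field K] [NumberField K] (n : (K →+* ℂ) → ℕ)
    (L : (Ideal (𝓞 K) →*₀ ℂ) → ℂ → ℂ) (δ X₀ η h ε a b : ℝ) : Prop :=
  ∀ 𝔮 : Ideal (𝓞 K), 𝔮 ≠ ⊥ → X₀ ≤ (Ideal.absNorm 𝔮 : ℝ) → (∃ χ, IsHeckeChar 𝔮 n χ) →
    (unitClasses 𝔮 : ℝ) ≤ (Ideal.absNorm 𝔮 : ℝ) ^ δ →
    (family n 𝔮).Finite ∧ (Ideal.absNorm 𝔮 : ℝ) ^ (1 - ε) ≤ ((family n 𝔮).ncard : ℝ) ∧
    ∀ T : ℝ, (Ideal.absNorm 𝔮 : ℝ) ^ η ≤ T →
      ((Ideal.absNorm 𝔮 : ℝ) * T ^ Module.finrank ℚ K) ^ h ≤ (Ideal.absNorm 𝔮 : ℝ) →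
      ∀ E : Set (Ideal (𝓞 K) →*₀ ℂ), E ⊆ family n 𝔮 →
        (1 - δ) * ((family n 𝔮).ncard : ℝ) ≤ (E.ncard : ℝ) →
        (∀ ψ ∈ E, (zeros (L ψ) T).Finite) ∧
        (1 - ε) * ((E.ncard : ℝ) * (T / (2 * Real.pi) *
          Real.log ((Ideal.absNorm 𝔮 : ℝ) * T ^ Module.finrank ℚ K))) ≤
          ∑ᶠ ψ ∈ E, (N₀ (L ψ) T : ℝ) ∧
        a * ∑ᶠ ψ ∈ E, (N₀ (L ψ) T : ℝ) ≤ ∑ᶠ ψ ∈ E, (Ns (L ψ) T : ℝ) ∧
        b * ∑ᶠ ψ ∈ E, (N₀ (L ψ) T : ℝ) ≤ ∑ᶠ ψ ∈ E, (Nd (L ψ) T : ℝ)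

/-- `L ψ` is the entire function `L(s, ψ)` for all Hecke characters `ψ` of `K` of type `n` (and
conductor `≠ (1)`) -/
def LFunctions (K : Type) [Field K] [NumberField K] (n : (K →+* ℂ) → ℕ)
    (L : (Ideal (𝓞 K) →*₀ ℂ) → ℂ → ℂ) : Prop :=
  ∀ (𝔣 : Ideal (𝓞 K)) (ψ : Ideal (𝓞 K) →*₀ ℂ), 𝔣 ≠ ⊤ → IsPrimitive 𝔣 n ψ → IsL ψ (L ψ)

/-- the family is finite, and every Hecke character of type `n` modulo `𝔮` (and not of conductor
one) is induced by exactly one member of the family -/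
def CompleteFamily (K : Type) [Field K] [NumberField K] (n : (K →+* ℂ) → ℕ) : Prop :=
  ∀ 𝔮 : Ideal (𝓞 K), 𝔮 ≠ ⊥ → (family n 𝔮).Finite ∧
    ∀ χ : Ideal (𝓞 K) →*₀ ℂ, IsHeckeChar 𝔮 n χ →
      (∃ x : 𝓞 K, x ≠ 0 ∧ TotPos x ∧ IsCoprime (Ideal.span {x}) 𝔮 ∧
        χ (Ideal.span {x}) ≠ phase n (x : K)) →
      ∃! ψ : Ideal (𝓞 K) →*₀ ℂ, ψ ∈ family n 𝔮 ∧ ∀ 𝔞, IsCoprime 𝔞 𝔮 → ψ 𝔞 = χ 𝔞

/-- there is a Hecke character of type `n` modulo `𝔮` if and only if the phases of the totally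
positive units congruent to one modulo `𝔮` are one (Weil) -/
def Criterion (K : Type) [Field K] [NumberField K] (n : (K →+* ℂ) → ℕ) : Prop :=
  ∀ 𝔮 : Ideal (𝓞 K), 𝔮 ≠ ⊥ → 𝔮 ≠ ⊤ → ((∃ χ, IsHeckeChar 𝔮 n χ) ↔
    ∀ u : (𝓞 K)ˣ, (u : 𝓞 K) - 1 ∈ 𝔮 → TotPos (u : 𝓞 K) → phase n ((u : 𝓞 K) : K) = 1)

/-- there are arbitrarily large multiples of every ideal for which the units occupy few residue
classes -/
def FewUnitClasses (K : Type) [Field K] [NumberField K] : Prop :=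
  ∀ (𝔪 : Ideal (𝓞 K)) (δ B : ℝ), 𝔪 ≠ ⊥ → 0 < δ → ∃ 𝔮 : Ideal (𝓞 K), 𝔮 ≠ ⊥ ∧ 𝔪 ∣ 𝔮 ∧
    B ≤ (Ideal.absNorm 𝔮 : ℝ) ∧ (unitClasses 𝔮 : ℝ) ≤ (Ideal.absNorm 𝔮 : ℝ) ^ δ

/-- If `K` contains the CM field `F`: exponents `k` on the embeddings of `F`, zero on one of two
conjugate embeddings and of the same parity `w` on the other ones, not all zero, define an infinity
type of `K`, and all units congruent to `1` modulo `3` have phase `1`. -/
def TypesFromCM (F K : Type) [Field F] [NumberField F] [IsCMField F] [Field K] [NumberField K]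
    [Algebra F K] : Prop :=
  ∀ (k : (F →+* ℂ) → ℕ) (w : ℕ), k ≠ 0 →
    (∀ τ : F →+* ℂ, k τ = 0 ∨ k (ComplexEmbedding.conjugate τ) = 0) →
    (∀ τ : F →+* ℂ, (k τ + k (ComplexEmbedding.conjugate τ)) % 2 = w % 2) →
    IsType (fun φ : K →+* ℂ => k (φ.comp (algebraMap F K))) ∧
    ∀ u : (𝓞 K)ˣ, (u : 𝓞 K) - 1 ∈ Ideal.span {(3 : 𝓞 K)} →
      phase (fun φ : K →+* ℂ => k (φ.comp (algebraMap F K))) ((u : 𝓞 K) : K) = 1

/-! ### Auxiliary facts -/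

section

variable {K : Type} [Field K] [NumberField K] {n : (K →+* ℂ) → ℕ}

open Pool.Agent.N784.HC (IsHecke CTyp FamN Dn ph phT phT_coe)

lemma prim_iff (𝔣 : Ideal (𝓞 K)) (ψ : Ideal (𝓞 K) →*₀ ℂ) :
    IsPrimitive 𝔣 n ψ ↔ IsHecke K 𝔣 n ψ :=
  ⟨fun h => ⟨h.ne_bot, h.supp, h.ray, h.prim⟩, fun h => ⟨h.ne_bot, h.supp, h.ray, h.prim⟩⟩

lemma family_eq (𝔮 : Ideal (𝓞 K)) : family n 𝔮 = FamN n 𝔮 := by
  ext ψ
  constructor
  · rintro ⟨𝔣, h1, h2, h3⟩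
    exact ⟨𝔣, h1, h2, (prim_iff 𝔣 ψ).mp h3⟩
  · rintro ⟨𝔣, h1, h2, h3⟩
    exact ⟨𝔣, h1, h2, (prim_iff 𝔣 ψ).mpr h3⟩

lemma family_top : family n (⊤ : Ideal (𝓞 K)) = ∅ := by
  rw [Set.eq_empty_iff_forall_notMem]
  rintro ψ ⟨𝔣, h1, h2, -⟩
  exact h2 (top_le_iff.mp (Ideal.dvd_iff_le.mp h1))

lemma ctyp (hn : IsType n) : CTyp n := hn.conj

/-- from functions on the ideals to homomorphisms -/
lemma toM_mem {𝔮 : Ideal (𝓞 K)} (htop : 𝔮 ≠ ⊤) {χ : Ideal (𝓞 K) →*₀ ℂ}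
    (hχ : IsHeckeChar 𝔮 n χ) : ∃ F ∈ Dn n htop, ∀ y : Pool.Agent.Y767.Mq 𝔮,
      ((F y : ℂˣ) : ℂ) = χ (y : Ideal (𝓞 K)) := by
  have hne : ∀ y : Pool.Agent.Y767.Mq 𝔮, χ (y : Ideal (𝓞 K)) ≠ 0 := fun y =>
    (hχ.supp _ (Pool.Agent.Y767.Mq_ne_bot htop y)).mpr (Pool.Agent.Y767.Mq_cop y)
  refine ⟨Pool.Agent.Y773.IQ.toM' χ hne, ?_, fun y => rfl⟩
  intro y
  ext
  change χ _ = _
  rw [Pool.Agent.N784.AD.pi1_coe, phT_coe]
  exact hχ.ray y (Pool.Agent.Y773.IQ.ne_zero_of_cop htop (Pool.Agent.N784.AD.T1_cop y))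
      (Pool.Agent.N784.AD.T1_one y) (Pool.Agent.N784.AD.T1_tp y)

lemma exists_iff {𝔮 : Ideal (𝓞 K)} (htop : 𝔮 ≠ ⊤) :
    (∃ χ, IsHeckeChar 𝔮 n χ) ↔ (Dn n htop).Nonempty := by
  constructor
  · rintro ⟨χ, hχ⟩
    obtain ⟨F, hF, -⟩ := toM_mem htop hχ
    exact ⟨F, hF⟩
  · rintro ⟨F, hF⟩
    refine ⟨Pool.Agent.Y773.IQ.ofM' htop F,
      fun 𝔞 _ => Pool.Agent.Y773.IQ.ofM'_supp htop F 𝔞, fun x hx0 hx1 hxp => ?_⟩
    rw [Pool.Agent.Y773.IQ.ofM'_pos htop F (Pool.Agent.Y773.IQ.cop_one hx1)]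
    have h1 := hF ⟨x, hx1, hxp⟩
    have h2 : Pool.Agent.N784.AD.pi1 htop ⟨x, hx1, hxp⟩ =
        ⟨Ideal.span {x}, Pool.Agent.Y773.IQ.cop_one hx1⟩ := rfl
    rw [h2] at h1
    rw [h1]
    rfl

/-- the general form -/
theorem holds_of (hn : IsType n) (γ h ε ε' η : ℝ) (h0 : 0 < γ) (hπ : γ < Real.pi) (hh : 0 < h)
    (hε : 0 < ε) (hε' : ε ≤ ε') (hη : 0 < η) (a b : ℝ)
    (ha : a ≤ 2 - Pool.Agent.N786.kc γ h - ε) (hb : 2 * b ≤ 3 - Pool.Agent.N786.kc γ h - ε) :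
    ∃ δ X₀ : ℝ, 0 < δ ∧ Holds K n (Pool.Agent.Y773.IQ.LL K) δ X₀ η h ε' a b := by
  classical
  obtain ⟨δ, X₀, hδ, hδ1, hX₀, H⟩ := Pool.Agent.N784.HC.mainN K n (ctyp hn) hn.ne_zero γ h ε η
    h0 hπ hh hε hη
  refine ⟨δ, X₀, hδ, ?_⟩
  intro 𝔮 hbot hX hχ hU
  obtain ⟨htop, hfin, hbig, H⟩ := H 𝔮 hbot hX (fun htop => (exists_iff htop).mp hχ) hU
  rw [family_eq]
  have hN1 : (1 : ℝ) ≤ (Ideal.absNorm 𝔮 : ℝ) := hX₀.trans hX
  refine ⟨hfin, le_trans (Real.rpow_le_rpow_of_exponent_le hN1 (by linarith)) hbig, ?_⟩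
  intro T hT hTh E hE hEc
  have hEf : E.Finite := hfin.subset hE
  have hEm : ∀ ψ ∈ hEf.toFinset, ψ ∈ E := fun ψ hψ => by rwa [Set.Finite.mem_toFinset] at hψ
  rw [Set.ncard_eq_toFinset_card _ hEf] at hEc ⊢
  obtain ⟨q0, q1, q2, q3, q4⟩ := H T hT hTh hEf.toFinset (fun ψ hψ => hE (hEm ψ hψ)) hEc
  rw [finsum_mem_eq_finite_toFinset_sum _ hEf, finsum_mem_eq_finite_toFinset_sum _ hEf,
    finsum_mem_eq_finite_toFinset_sum _ hEf]
  have hs0 : 0 ≤ ∑ ψ ∈ hEf.toFinset, (N₀ (Pool.Agent.Y773.IQ.LL K ψ) T : ℝ) :=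
    Finset.sum_nonneg fun _ _ => Nat.cast_nonneg _
  refine ⟨fun ψ hψ => q1 ψ (by rwa [Set.Finite.mem_toFinset]), ?_, ?_, ?_⟩
  · refine le_trans (mul_le_mul_of_nonneg_right (by linarith) ?_) q2
    have h1 : 1 ≤ (Ideal.absNorm 𝔮 : ℝ) * T ^ Module.finrank ℚ K := by
      have := one_le_pow₀ q0 (n := Module.finrank ℚ K)
      calc (1 : ℝ) = 1 * 1 := (one_mul 1).symm
        _ ≤ _ := mul_le_mul hN1 this zero_le_one (by linarith)
    have h2 := Real.log_nonneg h1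
    have h3 := Real.pi_pos
    positivity
  · exact le_trans (mul_le_mul_of_nonneg_right ha hs0) q3
  · have h1 : 2 * b * ∑ ψ ∈ hEf.toFinset, (N₀ (Pool.Agent.Y773.IQ.LL K ψ) T : ℝ) ≤
        2 * ∑ ψ ∈ hEf.toFinset, (Nd (Pool.Agent.Y773.IQ.LL K ψ) T : ℝ) :=
      le_trans (mul_le_mul_of_nonneg_right hb hs0) q4
    linarith

/-- the L-functions -/
theorem isL_LL (hn : IsType n) (𝔣 : Ideal (𝓞 K)) (ψ : Ideal (𝓞 K) →*₀ ℂ) (htop : 𝔣 ≠ ⊤)
    (hψ : IsPrimitive 𝔣 n ψ) : IsL ψ (Pool.Agent.Y773.IQ.LL K ψ) := by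
  obtain ⟨A, hA, hgood⟩ := Pool.Agent.N784.HC.goodH K (ctyp hn) hn.ne_zero
  have hp := (prim_iff 𝔣 ψ).mp hψ
  obtain ⟨F, hF, hFL, -⟩ := hgood 𝔣 ψ htop hp
  rw [Pool.Agent.Y773.IQ.LL_eq K hF hFL]
  obtain ⟨e, he, hc, hmod⟩ := hp.modK htop
  have hn := hmod.norm_le_one
  refine ⟨hF, ?_⟩
  intro s hs
  have h1 := (Pool.Agent.Y773.hasSum_log hn hs).cexp
  rw [← Pool.Agent.Y772.DK.LI_eq_exp ψ hn hs, ← hFL s hs] at h1
  refine h1.congr_fun fun 𝔭 => ?_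
  have hz := Pool.Agent.Y773.norm_zz_lt hn hs 𝔭.2
  have hne : 1 - Pool.Agent.Y773.zz ψ s 𝔭.1 ≠ 0 := by
    intro h0
    have h5 : Pool.Agent.Y773.zz ψ s 𝔭.1 = 1 := (sub_eq_zero.mp h0).symm
    rw [h5, norm_one] at hz
    exact lt_irrefl _ hz
  change _ = Complex.exp (-Complex.log (1 - Pool.Agent.Y773.zz ψ s 𝔭.1))
  rw [Complex.exp_neg, Complex.exp_log hne]
  rfl

/-- the characters modulo `𝔮` -/
theorem chars (𝔮 : Ideal (𝓞 K)) (hbot : 𝔮 ≠ ⊥) : (family n 𝔮).Finite ∧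
    ∀ χ : Ideal (𝓞 K) →*₀ ℂ, IsHeckeChar 𝔮 n χ →
      (∃ x : 𝓞 K, x ≠ 0 ∧ TotPos x ∧ IsCoprime (Ideal.span {x}) 𝔮 ∧
        χ (Ideal.span {x}) ≠ phase n (x : K)) →
      ∃! ψ : Ideal (𝓞 K) →*₀ ℂ, ψ ∈ family n 𝔮 ∧ ∀ 𝔞, IsCoprime 𝔞 𝔮 → ψ 𝔞 = χ 𝔞 := by
  by_cases htop : 𝔮 = ⊤
  · subst htop
    refine ⟨by rw [family_top]; exact Set.finite_empty, ?_⟩
    rintro χ hχ ⟨x, hx0, hxt, hx1, hx2⟩
    exact absurd (hχ.ray x hx0 Submodule.mem_top hxt) hx2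
  rw [family_eq]
  refine ⟨(Pool.Agent.N784.HC.FamN_finite hbot htop).1, ?_⟩
  rintro χ hχ ⟨x, hx0, hxt, hx1, hx2⟩
  obtain ⟨F, hF, hval⟩ := toM_mem htop hχ
  rcases Pool.Agent.N784.HC.exists_prim hbot htop F hF with h | ⟨𝔣, ψ, h1, h2, h3, h4⟩
  · exfalso
    apply hx2
    have h5 := h x hx1 hxt
    rw [hval] at h5
    exact h5
  · refine ⟨ψ, ⟨⟨𝔣, h1, h2, h3⟩, fun 𝔞 h𝔞 => (h4 ⟨𝔞, h𝔞⟩).trans (hval ⟨𝔞, h𝔞⟩)⟩, ?_⟩
    rintro ψ' ⟨⟨𝔣', h1', h2', h3'⟩, h4'⟩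
    refine (Pool.Agent.N784.HC.prim_unique hbot h3' h3 h1' h1 h2' h2 fun 𝔞 h𝔞 => ?_).2
    rw [h4' 𝔞 h𝔞]
    exact ((h4 ⟨𝔞, h𝔞⟩).trans (hval ⟨𝔞, h𝔞⟩)).symm

end

/-- **Main theorem.**  For every number field `K` there are functions `L ψ` such that for every
infinity type `n`: `L ψ` is the L-function of `ψ` for all Hecke characters of type `n`; the
family is complete; the criterion of Weil for the existence of characters holds; and the theorem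
on the zeros holds.  There are moduli for which the units occupy few residue classes, divisible by any
given ideal, and types which come from CM fields. -/
theorem result :
    ∃ a : ℝ, 0 < a ∧ a < 1 ∧ ∀ (K : Type) [Field K] [NumberField K],
    (∃ L : (Ideal (𝓞 K) →*₀ ℂ) → ℂ → ℂ, ∀ n : (K →+* ℂ) → ℕ, IsType n →
      LFunctions K n L ∧ CompleteFamily K n ∧ Criterion K n ∧
      (∀ h ε η : ℝ, 0 < h → h ≤ 1 → 0 < ε → 0 < η →
        ∃ δ X₀ : ℝ, 0 < δ ∧ Holds K n L δ X₀ η h ε (2 - c h - ε) ((3 - c h - ε) / 2)) ∧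
      (∀ ε η : ℝ, 0 < ε → 0 < η →
        ∃ δ X₀ : ℝ, 0 < δ ∧ Holds K n L δ X₀ η (1 - a) ε 0.6725 0.83625)) ∧
    FewUnitClasses K ∧
    (∀ (F : Type) [Field F] [NumberField F] [IsCMField F] [Algebra F K], TypesFromCM F K) := by
  obtain ⟨a, e, ha0, ha1, he, hk⟩ := Pool.Agent.N786.exists_h
  refine ⟨a, ha0, ha1, ?_⟩
  intro K _ _
  refine ⟨⟨Pool.Agent.Y773.IQ.LL K, fun n hn => ⟨isL_LL hn, chars, ?_, ?_, ?_⟩⟩, ?_, ?_⟩
  · intro 𝔮 hbot htop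
    rw [exists_iff htop]
    exact ⟨fun h u h1 h2 => Pool.Agent.N784.HC.dn_unit htop h u h1 h2,
      fun h => Pool.Agent.N784.HC.dn_nonempty htop h⟩
  · intro h ε η h0 h1 hε hη
    refine holds_of hn (Real.sqrt 2 * h) h ε ε η ?_ (Pool.Agent.N786.sqrt2_lt h1) h0 hε le_rfl hη
      _ _ ?_ ?_
    · have : 0 < Real.sqrt 2 := Real.sqrt_pos.mpr (by norm_num)
      positivity
    · rw [Pool.Agent.N786.kc_cH h0 h1]
      exact le_rfl
    · rw [Pool.Agent.N786.kc_cH h0 h1]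
      have : c h = Pool.Agent.Y762.cH h := rfl
      rw [this]
      linarith
  · intro ε η hε hη
    have h1 : min e ε ≤ e := min_le_left _ _
    refine holds_of hn 1.414 (1 - a) (min e ε) ε η (by norm_num) (by linarith [Real.pi_gt_three])
      (by linarith) (lt_min he hε) (min_le_right _ _) hη _ _ ?_ ?_
    · linarith
    · linarith
  · intro 𝔪 δ B hm hδ
    exact Pool.Agent.N784.HC.exists_modM K hm δ B hδ
  · intro F _ _ _ _
    intro k w hk0 hk1 hk2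
    refine ⟨⟨fun φ => ?_, ?_⟩, ?_⟩
    · exact hk1 (φ.comp (algebraMap F K))
    · obtain ⟨τ, hτ⟩ := Function.ne_iff.mp hk0
      have hfg : FiniteDimensional ℚ K := inferInstance
      obtain ⟨φ, hφ⟩ : ∃ φ : K →+* ℂ, φ.comp (algebraMap F K) = τ := by
        letI := τ.toAlgebra
        have : Algebra.IsAlgebraic F K := by
          have : FiniteDimensional F K := Module.Finite.of_restrictScalars_finite ℚ F K
          infer_instance
        obtain ⟨f⟩ : Nonempty (K →ₐ[F] ℂ) := ⟨IsAlgClosed.lift⟩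
        refine ⟨f.toRingHom, ?_⟩
        ext x
        exact f.commutes x
      intro h0
      apply hτ
      have := congrFun h0 φ
      simpa [hφ] using this
    · intro u hu
      obtain ⟨b, hb⟩ := Ideal.mem_span_singleton'.mp hu
      exact Pool.Agent.N545.HC.t_adm F K k w hk1 hk2 u ⟨b, by rw [← hb]; ring⟩

end Pool.Agent.Results.MP_7193be_nt.HeckeEveryNumberField
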