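import Pool.Agent.N880.HQ.Final
import Pool.Agent.N880.HQ.Exist

/-!
# Zeros of the L-function of the new part of the Jacobian of `X_1(2q)`

The weight 2 newforms of level `2q` (all nebentypus characters), realised on functions on `F_q²`
by means of the Hurwitz quaternions.
-/

set_option autoImplicit false

open Matrix Module

namespace Pool.Agent.Results.MP_7193be_nt.NewformsLevel2q

/-- The quadruple `(a, b, c, d)` of integers stands for the Hurwitz quaternion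
`a h + b i + c j + d k`, `h = (1 + i + j + k) / 2`; this is its reduced norm. -/
def qnorm (z : ℤ × ℤ × ℤ × ℤ) : ℤ :=
  z.1 ^ 2 + z.1 * z.2.1 + z.1 * z.2.2.1 + z.1 * z.2.2.2 + z.2.1 ^ 2 + z.2.2.1 ^ 2 + z.2.2.2 ^ 2

/-- The matrix `I`, image of `i`. -/
def matI (q : ℕ) : Matrix (Fin 2) (Fin 2) (ZMod q) := !![0, 1; -1, 0]

/-- The matrix `J`, image of `j` (here `x² + y² = -1` in `ZMod q`). -/
def matJ {q : ℕ} (x y : ZMod q) : Matrix (Fin 2) (Fin 2) (ZMod q) := !![x, y; y, -x]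

/-- Reduction modulo `q` of the Hurwitz quaternion `z`, a matrix over `ZMod q`;
`i, j, k` go to `I, J, I J`. -/
def qmat {q : ℕ} (x y : ZMod q) (z : ℤ × ℤ × ℤ × ℤ) : Matrix (Fin 2) (Fin 2) (ZMod q) :=
  (z.1 : ZMod q) • ((2 : ZMod q)⁻¹ • (1 + matI q + matJ x y + matI q * matJ x y)) +
    (z.2.1 : ZMod q) • matI q + (z.2.2.1 : ZMod q) • matJ x y +
      (z.2.2.2 : ZMod q) • (matI q * matJ x y)

/-- Forms: functions `φ` on the row vectors `F_q²` with `φ(0) = 0`, `∑ φ = 0`, and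
`φ(v u) = φ(v)` for the 24 Hurwitz units `u`. -/
structure IsForm {q : ℕ} [Fact q.Prime] (x y : ZMod q) (φ : (Fin 2 → ZMod q) → ℂ) : Prop where
  zero : φ 0 = 0
  sum : ∑ v, φ v = 0
  unit : ∀ z : ℤ × ℤ × ℤ × ℤ, qnorm z = 1 → ∀ v : Fin 2 → ZMod q, φ (v ᵥ* qmat x y z) = φ v

section
variable {q : ℕ} [Fact q.Prime] {x y : ZMod q}

theorem IsForm.z : IsForm x y 0 := ⟨rfl, by simp, fun _ _ _ => rfl⟩

theorem IsForm.add {φ ψ : (Fin 2 → ZMod q) → ℂ} (a : IsForm x y φ) (b : IsForm x y ψ) :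
    IsForm x y (φ + ψ) :=
  ⟨by simp [a.zero, b.zero], by simp [Finset.sum_add_distrib, a.sum, b.sum],
    fun u hu v => by simp [a.unit u hu v, b.unit u hu v]⟩

theorem IsForm.smul {φ : (Fin 2 → ZMod q) → ℂ} (c : ℂ) (a : IsForm x y φ) : IsForm x y (c • φ) :=
  ⟨by simp [a.zero], by simp [← Finset.mul_sum, a.sum], fun u hu v => by simp [a.unit u hu v]⟩

end

/-- The space of forms. -/
def Forms {q : ℕ} [Fact q.Prime] (x y : ZMod q) : Submodule ℂ ((Fin 2 → ZMod q) → ℂ) where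
  carrier := {φ | IsForm x y φ}
  zero_mem' := IsForm.z
  add_mem' := IsForm.add
  smul_mem' c _ := IsForm.smul c

/-- The Hecke operator `(T_n φ)(v) = (1/24) ∑ φ(v α)`, the sum over the Hurwitz quaternions `α`
of norm `n`. -/
noncomputable def hecke {q : ℕ} (x y : ZMod q) (n : ℕ) (φ : (Fin 2 → ZMod q) → ℂ) :
    (Fin 2 → ZMod q) → ℂ :=
  fun v => (1 / 24 : ℂ) * ∑ᶠ z ∈ {z : ℤ × ℤ × ℤ × ℤ | qnorm z = n}, φ (v ᵥ* qmat x y z)

/-- The completed L-function `(√(2q) / 2π)^s Γ(s) F(s)`. -/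
noncomputable def completed (q : ℕ) (F : ℂ → ℂ) (s : ℂ) : ℂ :=
  ((Real.sqrt (2 * q) / (2 * Real.pi) : ℝ) : ℂ) ^ s * Complex.Gamma s * F s

/-- The zeros `s` of `F` with `T < Im s ≤ 2 T`. -/
def zeroSet (F : ℂ → ℂ) (T : ℝ) : Set ℂ := {s : ℂ | T < s.im ∧ s.im ≤ 2 * T ∧ F s = 0}

/-- Their number, counted with multiplicity. -/
noncomputable def numZeros (F : ℂ → ℂ) (T : ℝ) : ℕ := ∑ᶠ s ∈ zeroSet F T, analyticOrderNatAt F s

/-- The number of distinct ones. -/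
noncomputable def numDistinct (F : ℂ → ℂ) (T : ℝ) : ℕ := (zeroSet F T).ncard

/-- The number of those which are simple and lie on the line `Re s = 1`. -/
noncomputable def numSimpleOnLine (F : ℂ → ℂ) (T : ℝ) : ℕ :=
  {s : ℂ | s ∈ zeroSet F T ∧ s.re = 1 ∧ analyticOrderNatAt F s = 1}.ncard

/-- `b` is a basis of the space of forms which consists of joint eigenfunctions of all the Hecke
operators, with eigenvalues `lam k n`. -/
def IsEigenbasis {q : ℕ} [Fact q.Prime] {x y : ZMod q} {g : ℕ} (b : Basis (Fin g) ℂ (Forms x y))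
    (lam : Fin g → ℕ → ℂ) : Prop :=
  ∀ k n, hecke x y n (b k) = lam k n • ((b k : Forms x y) : (Fin 2 → ZMod q) → ℂ)

/-- `F` is entire, `F(s) = ∑ a(n) n^(-s)` for `Re s > 9/2`, and `Λ(s) = w conj Λ(2 - conj s)`,
`|w| = 1`, for the completed function `Λ`. -/
structure IsLFunction (q : ℕ) (a : ℕ → ℂ) (F : ℂ → ℂ) : Prop where
  entire : Differentiable ℂ F
  series : ∀ s : ℂ, 9 / 2 < s.re → F s = ∑' n : ℕ, a n * (n : ℂ) ^ (-s)
  fe : ∃ w : ℂ, ‖w‖ = 1 ∧ ∀ s : ℂ, s.im ≠ 0 → completed q F s =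
    w * (starRingEnd ℂ) (completed q F (2 - (starRingEnd ℂ) s))

/-- Of all the zeros of the functions `F k` with `T < Im s ≤ 2T`, at least 67.25% are simple and
on the line `Re s = 1`, and at least 83.625% are distinct. -/
structure ManyOnLine {g : ℕ} (F : Fin g → ℂ → ℂ) (T : ℝ) : Prop where
  simple : 0.6725 * ∑ k, (numZeros (F k) T : ℝ) ≤ ∑ k, (numSimpleOnLine (F k) T : ℝ)
  distinct : 0.83625 * ∑ k, (numZeros (F k) T : ℝ) ≤ ∑ k, (numDistinct (F k) T : ℝ)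

/-! ### comparison with the helper files -/

section bridge
open Pool.Agent.N880.HQ

/-- the quadruple as an element of `Hur` -/
def toHur : (ℤ × ℤ × ℤ × ℤ) ≃ Hur where
  toFun z := ⟨z.1, z.2.1, z.2.2.1, z.2.2.2⟩
  invFun h := (h.a, h.b, h.c, h.d)
  left_inv _ := rfl
  right_inv _ := rfl

lemma qnorm_eq (z : ℤ × ℤ × ℤ × ℤ) : qnorm z = Hur.nrm (toHur z) := rfl

lemma qmat_eq {q : ℕ} [Fact q.Prime] (x y : ZMod q) (z : ℤ × ℤ × ℤ × ℤ) :
    qmat x y z = mat x y (toHur z) := by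
  ext i j
  fin_cases i <;> fin_cases j <;>
    simp [qmat, matI, matJ, mat, toHur] <;> ring

lemma Forms_eq {q : ℕ} [Fact q.Prime] (x y : ZMod q) : Forms x y = A0 x y := by
  ext φ
  constructor
  · rintro ⟨h1, h2, h3⟩
    refine ⟨h1, h2, fun u hu v => ?_⟩
    have h4 := h3 (toHur.symm u) (by rw [qnorm_eq, Equiv.apply_symm_apply]; simpa using mem_S.1 hu) v
    rwa [qmat_eq, Equiv.apply_symm_apply] at h4
  · rintro ⟨h1, h2, h3⟩
    refine ⟨h1, h2, fun z hz v => ?_⟩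
    rw [qmat_eq]
    exact h3 _ (mem_S.2 (by rw [← qnorm_eq, hz]; rfl)) v

lemma hecke_eq {q : ℕ} [Fact q.Prime] (x y : ZMod q) (n : ℕ) (φ : (Fin 2 → ZMod q) → ℂ) :
    hecke x y n φ = T x y n φ := by
  funext v
  unfold hecke
  rw [T_apply]
  congr 1
  have h : {z : ℤ × ℤ × ℤ × ℤ | qnorm z = n} = ((S n).map toHur.symm.toEmbedding : Set _) := by
    ext z
    rw [Set.mem_ofPred_eq, Finset.mem_coe, Finset.mem_map_equiv, Equiv.symm_symm, mem_S, qnorm_eq]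
  rw [h, finsum_mem_coe_finset, Finset.sum_map]
  refine Finset.sum_congr rfl fun α _ => ?_
  rw [Equiv.coe_toEmbedding, qmat_eq, Equiv.apply_symm_apply]

end bridge

/-- **Theorem.** There are `η > 0` and `q₀` such that for every prime `q ≥ q₀` (and `x² + y² = -1`
in `ZMod q`) the space of forms has dimension `(q² - 1)/24 - 1`, it has a basis of joint
eigenfunctions of the Hecke operators, and for every such basis, with eigenvalues `λ_k(n)`, the
L-functions `L_k(s) = ∑ λ_k(n) n^(-s)` are entire, satisfy a functional equation `s ↦ 2 - s`, and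
for `10 (log q)² ≤ T ≤ q^η` at least 67.25% of all their zeros with `T < Im s ≤ 2T` are simple and
lie on `Re s = 1`. -/
theorem result : ∃ η q₀ : ℝ, 0 < η ∧ ∀ (q : ℕ) [Fact q.Prime], q₀ ≤ q →
    ∀ x y : ZMod q, x ^ 2 + y ^ 2 = -1 →
    24 * (finrank ℂ (Forms x y) + 1) = q ^ 2 - 1 ∧
    (∃ (g : ℕ) (b : Basis (Fin g) ℂ (Forms x y)) (lam : Fin g → ℕ → ℂ), IsEigenbasis b lam) ∧
    ∀ (g : ℕ) (b : Basis (Fin g) ℂ (Forms x y)) (lam : Fin g → ℕ → ℂ), IsEigenbasis b lam →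
      ∃ F : Fin g → ℂ → ℂ, (∀ k, IsLFunction q (lam k) (F k)) ∧
        ∀ T : ℝ, 10 * Real.log q ^ 2 ≤ T → T ≤ (q : ℝ) ^ η → ManyOnLine F T := by
  obtain ⟨η, q₀, hη, hq₀, hmain⟩ := Pool.Agent.N880.HQ.final
  refine ⟨η, q₀, hη, ?_⟩
  intro q _ hq x y hxy
  have hqp : q.Prime := Fact.out
  have hq25 : (25 : ℝ) ≤ q := hq₀.trans hq
  have hqn : 25 ≤ q := by exact_mod_cast hq25
  have h2 : (2 : ZMod q) ≠ 0 := by
    intro h
    have : ((2 : ℕ) : ZMod q) = 0 := by exact_mod_cast h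
    rw [ZMod.natCast_eq_zero_iff] at this
    have := Nat.le_of_dvd (by norm_num) this
    omega
  have hE := Forms_eq x y
  set e := LinearEquiv.ofEq _ _ hE with he
  have hec : ∀ φ : Forms x y, ((e φ : Pool.Agent.N880.HQ.A0 x y) : (Fin 2 → ZMod q) → ℂ) = φ :=
    fun φ => LinearEquiv.coe_ofEq_apply _ _
  have hec' : ∀ φ : Pool.Agent.N880.HQ.A0 x y,
      ((e.symm φ : Forms x y) : (Fin 2 → ZMod q) → ℂ) = φ := by
    intro φ
    rw [← hec, LinearEquiv.apply_symm_apply]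
  refine ⟨?_, ?_, ?_⟩
  · rw [hE]
    exact Pool.Agent.N880.HQ.finrank_A0 hxy (by omega)
  · obtain ⟨b, lam, hb⟩ := Pool.Agent.N880.HQ.exists_eigenbasis h2 hxy
      (hqp.odd_of_ne_two (by omega)) rfl
    refine ⟨_, b.map e.symm, lam, fun k n => ?_⟩
    rw [Basis.map_apply, hecke_eq, hec', hb k n]
  · intro g b lam hb
    obtain ⟨F, hF1, hF2⟩ := hmain q x y hq hxy g (b.map e) lam (fun k n => by
      rw [Basis.map_apply, hec, ← hecke_eq, hb k n])
    exact ⟨F, fun k => ⟨(hF1 k).1, (hF1 k).2.1, (hF1 k).2.2⟩,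
      fun T h1 h3 => ⟨(hF2 T h1 h3).1, (hF2 T h1 h3).2⟩⟩

end Pool.Agent.Results.MP_7193be_nt.NewformsLevel2q
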