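import Pool.Agent.N880.QF.Ded

/-!
# Zeros of the Dedekind zeta functions of all quadratic fields

`X = Spec ℤ[1/2m][x] / (x² - m)`, `m` an integer which is not a square, `i = 0`.
-/

set_option autoImplicit false

namespace Pool.Agent.Results.MP_7193be_nt.QuadraticFields

/-- `Z` is the Dedekind zeta function of the number field `K`, continued analytically to `s ≠ 1`. -/
structure IsZeta (K : Type) [Field K] [NumberField K] (Z : ℂ → ℂ) : Prop where
  analytic : ∀ s : ℂ, s ≠ 1 → AnalyticAt ℂ Z s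
  series : ∀ s : ℂ, 1 < s.re → Z s = NumberField.dedekindZeta K s

/-- `K` is the quadratic field `ℚ(√m)`. -/
def IsQuadratic (K : Type) [Field K] [NumberField K] (m : ℤ) : Prop :=
  Module.finrank ℚ K = 2 ∧ ∃ a : K, a ^ 2 = (m : K)

/-- The zeros `s` of `F` with `T < Im s ≤ 2 T`. -/
def zeroSet (F : ℂ → ℂ) (T : ℝ) : Set ℂ := {s : ℂ | T < s.im ∧ s.im ≤ 2 * T ∧ F s = 0}

/-- Their number, counted with multiplicity. -/
noncomputable def numZeros (F : ℂ → ℂ) (T : ℝ) : ℕ := ∑ᶠ s ∈ zeroSet F T, analyticOrderNatAt F s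

/-- The number of distinct ones. -/
noncomputable def numDistinct (F : ℂ → ℂ) (T : ℝ) : ℕ := (zeroSet F T).ncard

/-- The number of those which are simple and lie on the critical line. -/
noncomputable def numSimpleOnLine (F : ℂ → ℂ) (T : ℝ) : ℕ :=
  {s : ℂ | s ∈ zeroSet F T ∧ s.re = 1 / 2 ∧ analyticOrderNatAt F s = 1}.ncard

open Classical in
/-- The integers `m` with `|m| ≤ Y` which are not squares. -/
noncomputable def nonsquares (Y : ℕ) : Finset ℤ :=
  (Finset.Icc (-(Y : ℤ)) (Y : ℤ)).filter (fun m => ¬ IsSquare m)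

/-- The sum of `f m` over all these `m` with the weight `exp(-π (m / X)²)`. -/
noncomputable def total (X : ℝ) (Y : ℕ) (f : ℤ → ℕ) : ℝ :=
  ∑ m ∈ nonsquares Y, Real.exp (-(Real.pi * ((m : ℝ) / X) ^ 2)) * (f m : ℝ)

section bridge
open Pool.Agent.N880.QF

lemma mem_nonsquares (Y : ℕ) (m : ℤ) : m ∈ nonsquares Y ↔ (|m| ≤ Y ∧ ¬ IsSquare m) := by
  unfold nonsquares
  rw [Finset.mem_filter, Finset.mem_Icc, abs_le]

lemma exists_zeta (K : Type) [Field K] [NumberField K] (hK : Module.finrank ℚ K = 2) :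
    ∃ Z : ℂ → ℂ, IsZeta K Z := by
  obtain ⟨m, a, ha, hm⟩ := quad_main K hK
  obtain ⟨N, hN, χ, hp, hatt⟩ := exists_char m hm
  refine ⟨fun s => riemannZeta s * DirichletCharacter.LFunction χ s, fun s hs => ?_, fun s hs => ?_⟩
  · have hd : DifferentiableOn ℂ (fun s => riemannZeta s * DirichletCharacter.LFunction χ s)
        {1}ᶜ := fun z hz => ((differentiableAt_riemannZeta hz).mul
          (DirichletCharacter.differentiableAt_LFunction χ z (Or.inl hz))).differentiableWithinAt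
    exact hd.analyticAt (isOpen_compl_singleton.mem_nhds hs)
  · exact (dz_main K hK m a ha hm N hN χ hp hatt s hs).symm

lemma zeroSet_eq {F : ℂ → ℂ} {T : ℝ} (h : ∀ s : ℂ, T < s.im → F s = 0 → 0 < s.re ∧ s.re < 1) :
    H370.zset F T (2 * T) = zeroSet F T := by
  ext s
  constructor
  · rintro ⟨-, -, h3, h4, h5⟩
    exact ⟨h3, h4, h5⟩
  · rintro ⟨h3, h4, h5⟩
    exact ⟨(h s h3 h5).1, (h s h3 h5).2, h3, h4, h5⟩

lemma num_eq {F : ℂ → ℂ} {T : ℝ} (h : ∀ s : ℂ, T < s.im → F s = 0 → 0 < s.re ∧ s.re < 1) :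
    H370.NN F T (2 * T) = numZeros F T ∧ H370.Ns F T (2 * T) = numSimpleOnLine F T ∧
      H370.Nd F T (2 * T) = numDistinct F T := by
  unfold H370.NN numZeros H370.Ns numSimpleOnLine H370.Nd numDistinct H370.mult
  rw [zeroSet_eq h]
  exact ⟨rfl, rfl, rfl⟩

end bridge

/-- Every quadratic field `K` has a Dedekind zeta function which continues to `s ≠ 1`. There are
`η, X₀ > 0` such that for all `X ≥ X₀`, all `T` with `(log X)² ≤ T ≤ X^η` and all `Y ≥ X log X`:
among all the zeros (with multiplicity) with `T < Im s ≤ 2T` of the Dedekind zeta functions of the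
fields `ℚ(√m)`, where `m` runs through the integers with `|m| ≤ Y` which are not squares, with
the weight `exp(-π (m / X)²)`, at least 67.25% are simple and on the critical line, and at least
83.625% are distinct. (The total number of the zeros is at least `X T log X / 7`.) -/
theorem result :
    (∀ (K : Type) [Field K] [NumberField K], Module.finrank ℚ K = 2 → ∃ Z : ℂ → ℂ, IsZeta K Z) ∧
    ∃ η X₀ : ℝ, 0 < η ∧ 3 ≤ X₀ ∧
    ∀ (K : ℤ → Type) [∀ m, Field (K m)] [∀ m, NumberField (K m)] (Z : ℤ → ℂ → ℂ),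
    (∀ m : ℤ, ¬ IsSquare m → IsQuadratic (K m) m ∧ IsZeta (K m) (Z m)) →
    ∀ (X T : ℝ) (Y : ℕ), X₀ ≤ X → (Real.log X) ^ 2 ≤ T → T ≤ X ^ η → X * Real.log X ≤ Y →
    (∀ m : ℤ, ¬ IsSquare m → |m| ≤ Y → (zeroSet (Z m) T).Finite) ∧
    0.6725 * total X Y (fun m => numZeros (Z m) T) ≤
      total X Y (fun m => numSimpleOnLine (Z m) T) ∧
    0.83625 * total X Y (fun m => numZeros (Z m) T) ≤
      total X Y (fun m => numDistinct (Z m) T) ∧
    X * T * Real.log X / 7 ≤ total X Y (fun m => numZeros (Z m) T) := by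
  refine ⟨exists_zeta, ?_⟩
  obtain ⟨η, X₀, hη, hX₀, h⟩ := Pool.Agent.N880.QF.ded_main
  refine ⟨η, X₀, hη, hX₀, ?_⟩
  intro K _ _ Z hZ X T Y hX hT1 hT2 hY
  obtain ⟨h1, h2, h3, h4⟩ := h K Z (fun m hm => ⟨(hZ m hm).1.1, (hZ m hm).1.2,
    (hZ m hm).2.analytic, (hZ m hm).2.series⟩) X T Y hX hT1 hT2 hY (nonsquares Y)
    (mem_nonsquares Y)
  have hN : ∀ m ∈ nonsquares Y, H370.NN (Z m) T (2 * T) = numZeros (Z m) T ∧
      H370.Ns (Z m) T (2 * T) = numSimpleOnLine (Z m) T ∧
      H370.Nd (Z m) T (2 * T) = numDistinct (Z m) T := fun m hm => num_eq (h1 m hm).2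
  have e1 : ∑ m ∈ nonsquares Y, Pool.Agent.N880.QF.om X m * (H370.NN (Z m) T (2 * T) : ℝ) =
      total X Y (fun m => numZeros (Z m) T) :=
    Finset.sum_congr rfl fun m hm => by rw [(hN m hm).1]; rfl
  have e2 : ∑ m ∈ nonsquares Y, Pool.Agent.N880.QF.om X m *
      (2 * (H370.NN (Z m) T (2 * T) : ℝ) - (H370.Ns (Z m) T (2 * T) : ℝ)) =
      2 * total X Y (fun m => numZeros (Z m) T) - total X Y (fun m => numSimpleOnLine (Z m) T) := by
    unfold total
    rw [Finset.mul_sum, ← Finset.sum_sub_distrib]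
    refine Finset.sum_congr rfl fun m hm => ?_
    rw [(hN m hm).1, (hN m hm).2.1]
    unfold Pool.Agent.N880.QF.om
    ring
  have e3 : ∑ m ∈ nonsquares Y, Pool.Agent.N880.QF.om X m *
      (3 * (H370.NN (Z m) T (2 * T) : ℝ) - 2 * (H370.Nd (Z m) T (2 * T) : ℝ)) =
      3 * total X Y (fun m => numZeros (Z m) T) -
        2 * total X Y (fun m => numDistinct (Z m) T) := by
    unfold total
    rw [Finset.mul_sum, Finset.mul_sum, ← Finset.sum_sub_distrib]
    refine Finset.sum_congr rfl fun m hm => ?_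
    rw [(hN m hm).1, (hN m hm).2.2]
    unfold Pool.Agent.N880.QF.om
    ring
  rw [e1] at h2 h3 h4
  rw [e2] at h2
  rw [e3] at h3
  refine ⟨fun m hm hmY => ?_, by linarith, by linarith, h4⟩
  have hmem : m ∈ nonsquares Y := (mem_nonsquares Y m).2 ⟨hmY, hm⟩
  rw [← zeroSet_eq (h1 m hmem).2]
  exact (h1 m hmem).1

end Pool.Agent.Results.MP_7193be_nt.QuadraticFields
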